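import Mathlib
import Pool.Agent.J4.H64.GL.Tr3

/-!
# MP_dc0c68_nt: numbers of bounded degree over a field with a split prime

Let `k` be a number field and `p` a prime number such that `k` has an automorphism `φ` with
`φ(x) ≡ x ^ p` modulo `p` for all algebraic integers `x` of `k`; for instance any number field `k`, of
any signature and Galois or not, in which `p` splits completely (`φ = 1`), or any Galois extension of
`ℚ` that is unramified at `p` and whose Frobenius automorphisms at `p` are central.  Let `K` be ANY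
finite extension of `k` (no assumption that `K / k` is Galois, no assumption on the ramification or the
signature), `d = [K : k]`, `n = [k : ℚ]`, and let `α ∈ K` be neither zero nor a root of unity.  Let `f`
be a nonzero integer polynomial with `f(α) = 0` and `m = M(f) ^ [K : ℚ(α)]`; so `m = M(f)` if
`K = ℚ(α)`.

* If `α` is an algebraic integer then `(p / 2d) ^ n ≤ m ^ (d (p + 1))`, for every `d`, `n` and `p`.  So
  `log m ≥ n log(p / 2d) / (d (p + 1))`, and for fixed `p > 2 d` the measure grows exponentially with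
  the degree.
* `m > 1.179 > M(L)` for all `α` if `d = 3`, `n ≥ 2` and `p ∈ {11, 13, 17, 19, 23, 29}`; or `d = 4`,
  `n ≥ 2` and `p ∈ {11, 13}`; or `d = 4`, `n ≥ 3` and `p ∈ {17, 19}`; or `d = 5`, `n ≥ 3` and
  `p ∈ {13, 17}`.

Method. Consider the numbers `E(y) = Tr(y ^ p) - φ(Tr(y))`, with the trace from `K` to `k`, for
`y = α ^ j`.  They are divisible by `p`.  If `E(α), E(α ^ 2), ..., E(α ^ d)` are all zero then, by
Newton's identities, the `p`-th powers of the conjugates of `α` over an embedding of `k` are the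
conjugates of `α` over another embedding; so taking `p`-th powers maps the set of the conjugates
of `α` into itself, and `α` is a root of unity.  So one of these numbers is not zero, and its norm is at
least `p ^ n`.  On the other side it is a sum of `2 d` terms at every place, which is bounded in terms
of the measure, at all the infinite places together, by a convexity argument.  For the second part the
norm of `α` to `k` is used too: either it is not a root of unity, and `N ^ p - φ(N)` is
used, or `α` is a unit and `E(α⁻¹)`, `E(α⁻²)` are available; moreover `E(α ^ 2)` is divisible by `2 p`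
if `E(α) = 0`.
-/

set_option autoImplicit false

namespace Pool.Agent.Results.MP_dc0c68_nt.BoundedRelativeDegree

open Polynomial Module IntermediateField

/-- The Mahler measure of an integer polynomial. -/
noncomputable def M (f : ℤ[X]) : ℝ := (f.map (Int.castRingHom ℂ)).mahlerMeasure

/-- `φ(x)` is congruent to `x ^ p` modulo `p`, for all algebraic integers `x` of `k`. -/
def Frobenius {k : Type} [Field k] [NumberField k] (p : ℕ) (φ : k ≃ₐ[ℚ] k) : Prop :=
  ∀ x : k, IsIntegral ℤ x → ∃ y : k, IsIntegral ℤ y ∧ x ^ p - φ x = p * y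

/-- The triples `(d, n, p)` of the second part. -/
def Good (d n p : ℕ) : Prop :=
  (d = 3 ∧ 2 ≤ n ∧ (p = 11 ∨ p = 13 ∨ p = 17 ∨ p = 19 ∨ p = 23 ∨ p = 29)) ∨
  (d = 4 ∧ 2 ≤ n ∧ (p = 11 ∨ p = 13)) ∨
  (d = 4 ∧ 3 ≤ n ∧ (p = 17 ∨ p = 19)) ∨
  (d = 5 ∧ 3 ≤ n ∧ (p = 13 ∨ p = 17))

theorem result (k K : Type) [Field k] [NumberField k] [Field K] [NumberField K] [Algebra k K]
    (p : ℕ) (hp : p.Prime) (φ : k ≃ₐ[ℚ] k) (hφ : Frobenius p φ) (α : K) (h0 : α ≠ 0)
    (hnt : ∀ n : ℕ, 0 < n → α ^ n ≠ 1) (f : ℤ[X]) (hf : f ≠ 0) (hα : aeval α f = 0)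
    (n d : ℕ) (hn : n = finrank ℚ k) (hd : d = finrank k K) (m : ℝ)
    (hm : m = M f ^ (finrank ℚ⟮α⟯ K)) :
    (IsIntegral ℤ α → ((p : ℝ) / (2 * d)) ^ n ≤ m ^ (d * (p + 1))) ∧
    (Good d n p → 1.179 < m) := by
  subst hm hn hd
  have hfd : FiniteDimensional ℚ⟮α⟯ K := FiniteDimensional.right ℚ ℚ⟮α⟯ K
  have hfd' : FiniteDimensional k K := FiniteDimensional.right ℚ k K
  have hd1 : 0 < finrank k K := finrank_pos
  have hM1 : 1 ≤ M f := Pool.Agent.J4.H64.GL.one_le_MP hf
  have hm1 : 1 ≤ M f ^ (finrank ℚ⟮α⟯ K) := one_le_pow₀ hM1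
  refine ⟨fun hint => ?_, fun hg => ?_⟩
  · have h1 := Pool.Agent.J4.H64.GL.general_simple hp hφ α hint h0 hnt
    have h2 : Pool.Agent.J4.H64.GL.MK K α ≤ M f ^ (finrank ℚ⟮α⟯ K) :=
      Pool.Agent.J4.H64.GL.measure_le α f hf hα
    have h3 : 0 < 2 * (finrank k K : ℝ) := by
      have : (0 : ℝ) < finrank k K := by exact_mod_cast hd1
      linarith
    rw [div_pow, div_le_iff₀ (by positivity), mul_comm]
    refine h1.trans (mul_le_mul_of_nonneg_left ?_ (by positivity))
    exact pow_le_pow_left₀ (by linarith [Pool.Agent.J4.H64.GL.one_le_MK K α]) h2 _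
  · by_cases hint : IsIntegral ℤ α
    · exact (Pool.Agent.J4.H64.GL.good_bound hp hφ hg α hint h0 hnt).trans_le
        (Pool.Agent.J4.H64.GL.measure_le α f hf hα)
    · have h1 : (2 : ℝ) ≤ M f :=
        Pool.Agent.J4.H64.GL.two_le_of_not_integral α f hf hα hint
      have h3 : M f ≤ M f ^ (finrank ℚ⟮α⟯ K) := le_self_pow₀ hM1 finrank_pos.ne'
      linarith

end Pool.Agent.Results.MP_dc0c68_nt.BoundedRelativeDegree
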