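import Mathlib
import Pool.Agent.J4.H64.GL.Tr4

/-!
# MP_dc0c68_nt: quadratic and multiquadratic extensions of fields with a split prime

Let `k` be a number field and `p` a prime number such that `k` has an automorphism `φ` with
`φ(x) ≡ x ^ p` modulo `p` for all algebraic integers `x` of `k`; for instance any number field `k`, of
any signature and Galois or not, in which `p` splits completely (`φ = 1`), or any Galois extension of
`ℚ` that is unramified at `p` and whose Frobenius automorphisms at `p` are central.  Let `K` be a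
Galois extension of `k` whose Galois group has exponent `1` or `2`, for instance `[K : k] ≤ 2`, and let
`α ∈ K` be neither zero nor a root of unity.  Let `f` be a nonzero integer polynomial with
`f(α) = 0` and `m = M(f) ^ [K : ℚ(α)]`; so `m = M(f)` if `K = ℚ(α)`.

* If `p ∈ {5, 7, 11, 13, 17, 19, 23}` then `m > 1.2`, and if `p ∈ {29, 31}` then `m > 1.18`, whatever
  the degree of `k` is; both are larger than `M(L) = 1.176...`.
* If `p ≥ 3` and `α` is an algebraic integer, `n = [k : ℚ]`, then `(p / 2) ^ n ≤ m ^ (p + 1)` or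
  `(p / 4) ^ n ≤ (m ^ p + 3) (m + 3) / 16`; so `m` grows exponentially with `n` if `p ≥ 5`.

So the inequality asked for holds for all numbers `α` of degree at most two over a subfield of `ℚ(α)`
in which one of the primes from `5` to `31` splits completely, for instance for all Salem numbers whose
trace field has this property.

Method. A norm of `α` to an extension of degree at most two is not a root of unity, and the norm
does not increase the measure; so let `K` have degree two over `k`, and let `B`, `γ` be the trace and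
the norm of `α`. If `γ` is not a root of unity one uses the norm of `γ ^ p - φ(γ)`. If it is, then
`γ ^ p = φ(γ)`, and one uses the norm of `T - φ(B)`, where `T` is the trace of `α ^ p`. This number is
divisible by `p`; it is not zero, because otherwise taking `p`-th powers would permute the conjugates
of `α`; and it is small in terms of the measure, at all the infinite places together.
-/

set_option autoImplicit false

namespace Pool.Agent.Results.MP_dc0c68_nt.FrobeniusFields

open Polynomial Module IntermediateField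

/-- The Mahler measure of an integer polynomial. -/
noncomputable def M (f : ℤ[X]) : ℝ := (f.map (Int.castRingHom ℂ)).mahlerMeasure

/-- `φ(x)` is congruent to `x ^ p` modulo `p`, for all algebraic integers `x` of `k`. -/
def Frobenius {k : Type} [Field k] [NumberField k] (p : ℕ) (φ : k ≃ₐ[ℚ] k) : Prop :=
  ∀ x : k, IsIntegral ℤ x → ∃ y : k, IsIntegral ℤ y ∧ x ^ p - φ x = p * y

theorem result (k K : Type) [Field k] [NumberField k] [Field K] [NumberField K] [Algebra k K]
    [IsGalois k K] (hexp : ∀ g : K ≃ₐ[k] K, g * g = 1) (p : ℕ) (hp : p.Prime) (φ : k ≃ₐ[ℚ] k)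
    (hφ : Frobenius p φ) (α : K) (h0 : α ≠ 0) (hnt : ∀ n : ℕ, 0 < n → α ^ n ≠ 1) (f : ℤ[X])
    (hf : f ≠ 0) (hα : aeval α f = 0) (n : ℕ) (hn : n = finrank ℚ k) (m : ℝ)
    (hm : m = M f ^ (finrank ℚ⟮α⟯ K)) :
    (p = 5 ∨ p = 7 ∨ p = 11 ∨ p = 13 ∨ p = 17 ∨ p = 19 ∨ p = 23 → 1.2 < m) ∧
    (p = 29 ∨ p = 31 → 1.18 < m) ∧
    (3 ≤ p → IsIntegral ℤ α → ((p : ℝ) / 2) ^ n ≤ m ^ (p + 1) ∨
      ((p : ℝ) / 4) ^ n ≤ (m ^ p + 3) * (m + 3) / 16) := by
  subst hm hn
  have hfd : FiniteDimensional ℚ⟮α⟯ K := FiniteDimensional.right ℚ ℚ⟮α⟯ K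
  have hM1 : 1 ≤ M f := Pool.Agent.J4.H64.GL.one_le_MP hf
  have hm1 : 1 ≤ M f ^ (finrank ℚ⟮α⟯ K) := one_le_pow₀ hM1
  have hIneq : 3 ≤ p → IsIntegral ℤ α →
      Pool.Agent.J4.H64.GL.Ineq2 p (finrank ℚ k) (M f ^ (finrank ℚ⟮α⟯ K)) := by
    intro h3 hint
    have h1 := Pool.Agent.J4.H64.GL.frob_multi2 hp h3 hφ hexp α hint h0 hnt
    exact h1.mono (Pool.Agent.J4.H64.GL.one_le_MK K α)
      (Pool.Agent.J4.H64.GL.measure_le α f hf hα)
  have hone : finrank ℚ k = 1 → IsIntegral ℤ α → (1.21 : ℝ) < M f ^ (finrank ℚ⟮α⟯ K) := by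
    intro h4 hint
    have h5 := Pool.Agent.J4.H64.GL.multi_bound
      (Pool.Agent.J4.H64.GL.inCyclotomic_of_one h4) (finrank k K) K hexp le_rfl α hint h0 hnt
    have h6 := Pool.Agent.J4.H64.GL.measure_le α f hf hα
    exact h5.trans_le h6
  have hnon : ¬ IsIntegral ℤ α → (2 : ℝ) ≤ M f ^ (finrank ℚ⟮α⟯ K) := by
    intro hint
    have h1 : (2 : ℝ) ≤ M f :=
      Pool.Agent.J4.H64.GL.two_le_of_not_integral α f hf hα hint
    have h3 : M f ≤ M f ^ (finrank ℚ⟮α⟯ K) := le_self_pow₀ hM1 finrank_pos.ne'
    linarith
  have hpos : 0 < finrank ℚ k := finrank_pos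
  refine ⟨fun hp4 => ?_, fun hp4 => ?_, fun h3 hint => ?_⟩
  · by_cases hint : IsIntegral ℤ α
    · by_cases h2 : 2 ≤ finrank ℚ k
      · have h3 := (hIneq (by omega) hint).large hp4 h2 hm1
        norm_num at h3 ⊢
        exact h3
      · have h4 := hone (by omega) hint
        norm_num at h4 ⊢
        linarith
    · have h4 := hnon hint
      norm_num at h4 ⊢
      linarith
  · by_cases hint : IsIntegral ℤ α
    · by_cases h2 : 2 ≤ finrank ℚ k
      · exact (hIneq (by omega) hint).large' hp4 h2 hm1
      · have h4 := hone (by omega) hint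
        norm_num at h4 ⊢
        linarith
    · have h4 := hnon hint
      norm_num at h4 ⊢
      linarith
  · rcases hIneq h3 hint with h | h
    · left
      rw [div_pow, div_le_iff₀ (by positivity), mul_comm]
      exact h
    · right
      rw [div_pow, div_le_iff₀ (by positivity), mul_comm]
      refine h.trans (le_of_eq ?_)
      unfold Pool.Agent.J4.H64.GL.V
      push_cast
      ring

end Pool.Agent.Results.MP_dc0c68_nt.FrobeniusFields
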