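import Mathlib
import Pool.Agent.J4.H64.GL.Conv

/-!
# MP_dc0c68_nt: numbers that generate Galois extensions

Let `K` be a number field that is a Galois extension of `ℚ`, `k` a totally real subfield of `K` such
that `[K : k]` is not divisible by `4`, and let `α ∈ K` be neither zero nor a root of unity.  Then
every nonzero integer polynomial `f` with `f(α) = 0` satisfies
`M(f) ^ (2 [K : ℚ(α)]) ≥ ((1 + √5) / 2) ^ [k : ℚ]` if `α` is an algebraic integer (and `M(f) ≥ 2`
otherwise).  In particular, `M(f) > 1.27 > M(L)` if `K = ℚ(α)`: the inequality asked for holds for all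
numbers `α` for which `ℚ(α)` is a Galois extension of `ℚ` whose degree over its largest totally real
subfield is not divisible by `4`, for example whenever `ℚ(α)` is Galois over `ℚ` and the degree of `α`
is not divisible by `4` (take `k = ℚ`).

The same holds, without the condition that `K` is Galois, if `[K : k]` is `2` modulo `4` and there is
a nonreal embedding `σ` of `K` whose image is stable under complex conjugation, with `|σ(α)| ≠ 1`.

Method: if `|σ(α)| ≠ 1` then the norm of `α` to the fixed field of the complex conjugation
belonging to `σ` is not a root of unity, because its image under `σ` is `|σ(α)| ^ 2`. This field has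
odd degree over `k`, so the minimal polynomial over `k` of the norm is not reciprocal up to a unit,
and the inequality of Smyth and Schinzel applies. Taking norms does not increase the measure.
-/

set_option autoImplicit false

namespace Pool.Agent.Results.MP_dc0c68_nt.GaloisNumbers

open Polynomial Module ComplexConjugate IntermediateField

/-- The Mahler measure of an integer polynomial. -/
noncomputable def M (f : ℤ[X]) : ℝ := (f.map (Int.castRingHom ℂ)).mahlerMeasure

/-- The lower bound for the number `α` of the field `K`, with the parameter `n`: all nonzero integer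
polynomials `f` with `f(α) = 0` satisfy `M(f) ^ (2 [K : ℚ(α)]) ≥ ((1 + √5) / 2) ^ n` if `α` is an
algebraic integer, `M(f) ≥ 2` if it is not, and `M(f) > 1.27` if `K = ℚ(α)`. -/
def Large (K : Type*) [Field K] [NumberField K] (n : ℕ) (α : K) : Prop :=
  ∀ f : ℤ[X], f ≠ 0 → aeval α f = 0 →
    (IsIntegral ℤ α → Real.goldenRatio ^ n ≤ M f ^ (2 * finrank ℚ⟮α⟯ K)) ∧
    (¬ IsIntegral ℤ α → 2 ≤ M f) ∧ (ℚ⟮α⟯ = ⊤ → 127 / 100 < M f)

lemma large_of {K : Type*} [Field K] [NumberField K] {n : ℕ} (hn : 0 < n) (α : K)
    (h : IsIntegral ℤ α → Real.goldenRatio ^ n ≤ (∏ σ : K →+* ℂ, max 1 ‖σ α‖) ^ 2) :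
    Large K n α := by
  intro f hf hα
  have h1 : ¬ IsIntegral ℤ α → 2 ≤ M f :=
    fun hint => Pool.Agent.J4.H64.GL.two_le_of_not_integral α f hf hα hint
  have h2 : IsIntegral ℤ α → Real.goldenRatio ^ n ≤ M f ^ (2 * finrank ℚ⟮α⟯ K) := by
    intro hint
    refine (h hint).trans ?_
    rw [mul_comm, pow_mul]
    exact pow_le_pow_left₀ (Finset.prod_nonneg fun _ _ => zero_le_one.trans (le_max_left _ _))
      (Pool.Agent.J4.H64.GL.measure_le α f hf hα) 2
  refine ⟨h2, h1, fun htop => ?_⟩
  by_cases hint : IsIntegral ℤ α
  · have h3 := h2 hint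
    rw [htop, IntermediateField.finrank_top, mul_one] at h3
    have h4 : Real.goldenRatio ≤ Real.goldenRatio ^ n :=
      le_self_pow₀ Real.one_lt_goldenRatio.le (by omega)
    have h5 : (1.618 : ℝ) < Real.goldenRatio := by
      have h6 : (2.236 : ℝ) < Real.sqrt 5 := by
        rw [Real.lt_sqrt (by norm_num)]
        norm_num
      unfold Real.goldenRatio
      linarith
    have h6 : 0 ≤ M f := mahlerMeasure_nonneg _
    nlinarith
  · have := h1 hint
    linarith

theorem result (k K : Type) [Field k] [NumberField k] [NumberField.IsTotallyReal k] [Field K]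
    [NumberField K] [Algebra k K] (α : K) (h0 : α ≠ 0) :
    (IsGalois ℚ K → ¬ 4 ∣ finrank k K → (∀ n : ℕ, 0 < n → α ^ n ≠ 1) →
      Large K (finrank ℚ k) α) ∧
    (finrank k K % 4 = 2 → ∀ σ : K →+* ℂ, (∃ x, conj (σ x) ≠ σ x) →
      (∀ x, ∃ y, conj (σ x) = σ y) → ‖σ α‖ ≠ 1 → Large K (finrank ℚ k) α) := by
  have hreal : ∀ (v : k →+* ℂ) (y : k), conj (v y) = v y := by
    intro v y
    have h1 := NumberField.IsTotallyReal.complexEmbedding_isReal v
    exact congrArg (fun τ : k →+* ℂ => τ y) h1
  have hn : 0 < finrank ℚ k := finrank_pos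
  have hfd : FiniteDimensional k K := FiniteDimensional.right ℚ k K
  refine ⟨fun hG hd hnt => large_of hn α fun hint => ?_,
    fun hd σ hne hst h1 => large_of hn α fun hint => ?_⟩
  · exact Pool.Agent.J4.H64.GL.galois_bound hreal hd α hint h0 hnt
  · choose g hg using hst
    have hg2 : ∀ x, g (g x) = x := by
      intro x
      apply σ.injective
      rw [← hg, ← hg, Complex.conj_conj]
    let c : K ≃ₐ[k] K :=
      { toFun := g
        invFun := g
        left_inv := hg2
        right_inv := hg2
        map_mul' := by
          intro x y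
          apply σ.injective
          rw [← hg, map_mul, map_mul, map_mul, hg, hg]
        map_add' := by
          intro x y
          apply σ.injective
          rw [← hg, map_add, map_add, map_add, hg, hg]
        commutes' := by
          intro y
          apply σ.injective
          rw [← hg]
          exact hreal (σ.comp (algebraMap k K)) y }
    refine Pool.Agent.J4.H64.GL.conj_bound hreal hd σ c hg ?_ α hint h0 h1
    obtain ⟨x, hx⟩ := hne
    refine ⟨x, fun h => hx ?_⟩
    rw [hg]
    exact congrArg σ h

end Pool.Agent.Results.MP_dc0c68_nt.GaloisNumbers
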