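import Mathlib
import Pool.Agent.J4.H64.GL.Multi

/-!
# MP_dc0c68_nt: numbers in quadratic and multiquadratic extensions of abelian fields

Let `K` be a number field and `k` a subfield of `K` which is abelian over `ℚ` (that is, contained in a
cyclotomic field), such that `K` is a Galois extension of `k` whose Galois group has exponent `1` or
`2`; for instance any `K` with `[K : k] ≤ 2`.  Let `α ∈ K` be neither zero nor a root of unity and let
`f` be a nonzero integer polynomial with `f(α) = 0`.  Then `M(f) ^ [K : ℚ(α)] > 1.21`; in particular
`M(f) > 1.21 > M(L)` if `K = ℚ(α)`.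

So the inequality asked for holds for all numbers `α` that generate an extension of degree at most two,
or a multiquadratic extension, of an abelian subfield of `ℚ(α)`; for instance if `ℚ(α)` is a Galois
extension of `ℚ` and all commutators of its Galois group commute with each other and have order
at most two. A starting result is the case where `α + 1/α` lies in `k`.

Method. Some norm of `α` to an extension `L` of degree at most two of `k` is not a root of unity, and
the norm does not increase the measure, so let `K` have degree two over `k`, with the nontrivial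
automorphism `s`. Let `γ = α s(α)`, `B = α + s(α)` and let `c` be the complex conjugation of `k`.
If `γ` is not a root of unity one uses the norm of `γ c(γ) - 1`. Otherwise, if `B ≠ γ c(B)`, one uses
the norm of `B - γ c(B)`, which is small at all places in terms of the measure. If `B = γ c(B)` then
`κ = α / s(α)` satisfies `κ + 1/κ = B c(B) - 2 ∈ k`, and either `γ = 1`, or `κ` generates a field of
index at least two in `K`; in both cases the bound for numbers `κ` with `κ + 1/κ` abelian (by a
congruence modulo `5`, in the starting files) gives the result.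
-/

set_option autoImplicit false

namespace Pool.Agent.Results.MP_dc0c68_nt.MultiquadraticOverAbelian

open Polynomial Module IntermediateField

/-- The Mahler measure of an integer polynomial. -/
noncomputable def M (f : ℤ[X]) : ℝ := (f.map (Int.castRingHom ℂ)).mahlerMeasure

/-- `k` is isomorphic to a subfield of a cyclotomic field. -/
def Cyclotomic (k : Type) [Field k] : Prop :=
  ∃ N : ℕ, 0 < N ∧ ∃ ι : k →+* ℂ, ∀ x, ι x ∈ IntermediateField.adjoin ℚ {w : ℂ | w ^ N = 1}

theorem result (k K : Type) [Field k] [NumberField k] [Field K] [NumberField K] [Algebra k K]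
    [IsGalois k K] (hk : Cyclotomic k) (hexp : ∀ g : K ≃ₐ[k] K, g * g = 1) (α : K) (h0 : α ≠ 0)
    (hnt : ∀ n : ℕ, 0 < n → α ^ n ≠ 1) (f : ℤ[X]) (hf : f ≠ 0) (hα : aeval α f = 0) :
    121 / 100 < M f ^ (finrank ℚ⟮α⟯ K) := by
  have hfd : FiniteDimensional ℚ⟮α⟯ K := FiniteDimensional.right ℚ ℚ⟮α⟯ K
  by_cases hint : IsIntegral ℤ α
  · have h1 := Pool.Agent.J4.H64.GL.multi_bound hk (finrank k K) K hexp le_rfl α hint h0 hnt
    have h2 := Pool.Agent.J4.H64.GL.measure_le α f hf hα
    have h3 : (121 / 100 : ℝ) = 1.21 := by norm_num
    rw [h3]
    exact h1.trans_le h2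
  · have h1 := Pool.Agent.J4.H64.GL.two_le_of_not_integral α f hf hα hint
    have h2 : (1 : ℝ) ≤ M f := by
      have : (2 : ℝ) ≤ M f := h1
      linarith
    have h3 : M f ≤ M f ^ (finrank ℚ⟮α⟯ K) := le_self_pow₀ h2 finrank_pos.ne'
    have h4 : (2 : ℝ) ≤ M f := h1
    linarith

end Pool.Agent.Results.MP_dc0c68_nt.MultiquadraticOverAbelian
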